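import Mathlib

namespace Pool.Agent.Results.MP_a0fa86_nt.TwoDim
open Set

/-- An integer vector viewed in `ℝ²` (which carries the sup norm). -/
def toR (x : Fin 2 → ℤ) : Fin 2 → ℝ := fun i => x i

/-- Best approximation vectors for the sup norms. -/
def Best (Θ : Matrix (Fin 2) (Fin 2) ℝ) (x y : Fin 2 → ℤ) : Prop :=
  x ≠ 0 ∧ ∀ x' y' : Fin 2 → ℤ, ‖toR x'‖ ≤ ‖toR x‖ →
    ‖Θ.mulVec (toR x') - toR y'‖ ≤ ‖Θ.mulVec (toR x) - toR y‖ →
      (x' = 0 ∧ y' = 0) ∨ (x' = x ∧ y' = y) ∨ (x' = -x ∧ y' = -y)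

noncomputable def T : Matrix (Fin 2) (Fin 2) ℝ := !![2 / 10, 2 * √2 / 10; √2 / 10, 2 / 10]

lemma s2 : √2 * √2 = (2 : ℝ) := Real.mul_self_sqrt (by norm_num)
lemma s_lo : (1.41 : ℝ) < √2 := Real.lt_sqrt_of_sq_lt (by norm_num)
lemma s_hi : √2 < (1.42 : ℝ) := (Real.sqrt_lt' (by norm_num)).2 (by norm_num)

lemma nle (v : Fin 2 → ℝ) (c : ℝ) : ‖v‖ ≤ c ↔ |v 0| ≤ c ∧ |v 1| ≤ c := by
  constructor
  · exact fun h => ⟨(norm_le_pi_norm v 0).trans h, (norm_le_pi_norm v 1).trans h⟩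
  · rintro ⟨h1, h2⟩
    exact (pi_norm_le_iff_of_nonneg ((abs_nonneg _).trans h1)).2 (Fin.forall_fin_two.2 ⟨h1, h2⟩)

lemma e0 (x y : Fin 2 → ℤ) :
    (T.mulVec (toR x) - toR y) 0 = 2 * (x 0 + √2 * x 1) / 10 - y 0 := by
  simp [T, toR, dotProduct, Fin.sum_univ_two]; ring

lemma e1 (x y : Fin 2 → ℤ) :
    (T.mulVec (toR x) - toR y) 1 = √2 * (x 0 + √2 * x 1) / 10 - y 1 := by
  simp [T, toR, dotProduct, Fin.sum_univ_two]
  linear_combination (-(x 1 : ℝ) / 10) * s2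

lemma nrm (u v : ℤ) (h : u * u - 2 * v * v = 0) : u = 0 ∧ v = 0 := by
  have hv : v = 0 := by
    by_contra hv
    have h1 : ((u : ℝ) - √2 * v) * (u + √2 * v) = 0 := by
      have : (u : ℝ) * u - 2 * v * v = 0 := by exact_mod_cast h
      linear_combination this - (v : ℝ) * v * s2
    have hv' : (v : ℝ) ≠ 0 := by exact_mod_cast hv
    rcases mul_eq_zero.1 h1 with h2 | h2
    · exact irrational_sqrt_two ⟨u / v, by push_cast; field_simp; linarith⟩
    · exact irrational_sqrt_two ⟨-u / v, by push_cast; field_simp; linarith⟩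
  exact ⟨by simpa [hv] using h, hv⟩

lemma y0 (x y : Fin 2 → ℤ) (X : ℝ) (hx : ‖toR x‖ ≤ X)
    (he : ‖T.mulVec (toR x) - toR y‖ ≤ 3 / (10 * (X + 1))) : y = 0 := by
  have hX : 0 ≤ X := (norm_nonneg _).trans hx
  rw [nle] at hx he
  rw [e0, e1] at he
  simp only [toR] at hx
  set c := 3 / (10 * (X + 1)) with hc
  have hc1 : c * (X + 1) = 3 / 10 := by rw [hc]; field_simp
  have hc0 : 0 ≤ c := by positivity
  obtain ⟨⟨a1, a2⟩, a3, a4⟩ := And.imp abs_le.1 abs_le.1 hx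
  obtain ⟨⟨b1, b2⟩, b3, b4⟩ := And.imp abs_le.1 abs_le.1 he
  have := s_lo
  have := s_hi
  set ξ : ℝ := x 0 + √2 * x 1 with hξ
  have k0 : |ξ| ≤ 5 / 2 * X := abs_le.2 ⟨by nlinarith, by nlinarith⟩
  have k3 : √2 * (√2 * ξ / 10 - y 1) = 2 * ξ / 10 - √2 * y 1 := by
    linear_combination (ξ / 10) * s2
  have k4 : |√2 * (√2 * ξ / 10 - y 1)| ≤ 3 / 2 * c := abs_le.2 ⟨by nlinarith, by nlinarith⟩
  rw [k3] at k4
  obtain ⟨c1, c2⟩ := abs_le.1 k0
  obtain ⟨c3, c4⟩ := abs_le.1 k4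
  have k1 : |(y 0 : ℝ) - √2 * y 1| ≤ 5 / 2 * c := abs_le.2 ⟨by linarith, by linarith⟩
  have k2 : |(y 0 : ℝ) + √2 * y 1| ≤ X + 5 / 2 * c := abs_le.2 ⟨by linarith, by linarith⟩
  have k5 : |((y 0 * y 0 - 2 * y 1 * y 1 : ℤ) : ℝ)| < 1 := by
    have : ((y 0 * y 0 - 2 * y 1 * y 1 : ℤ) : ℝ) = (y 0 - √2 * y 1) * (y 0 + √2 * y 1) := by
      push_cast; linear_combination (y 1 : ℝ) * y 1 * s2
    rw [this, abs_mul]
    have h3 : c ≤ 3 / 10 := by nlinarith
    calc _ ≤ 5 / 2 * c * (X + 5 / 2 * c) := by gcongr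
      _ < 1 := by nlinarith
  obtain ⟨h1, h2⟩ := nrm _ _ (Int.abs_lt_one_iff.1 (by exact_mod_cast k5))
  funext i; fin_cases i <;> simp [h1, h2]

lemma best_y (x y : Fin 2 → ℤ) (h : Best T x y) : y = 0 := by
  obtain ⟨n, hn⟩ : ∃ n : ℕ, ‖toR x‖ = n := by
    refine ⟨max (x 0).natAbs (x 1).natAbs, le_antisymm ((nle _ _).2 ⟨?_, ?_⟩) ?_⟩
    · simp [toR]
    · simp [toR]
    · have := (nle (toR x) _).1 le_rfl
      simpa [toR] using this
  have hn0 : 0 < n := by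
    by_contra h0
    have h1 : ‖toR x‖ ≤ 0 := by rw [hn, show n = 0 by omega]; simp
    obtain ⟨h2, h3⟩ := (nle _ _).1 h1
    simp only [toR, abs_nonpos_iff, Int.cast_eq_zero] at h2 h3
    exact h.1 (by funext i; fin_cases i <;> simp [h2, h3])
  by_contra hy
  obtain ⟨j, k, hk, hkn, hj⟩ := Real.exists_int_int_abs_mul_sub_le (√2 / 2) hn0
  have := s_lo
  have := s_hi
  have hk' : (1 : ℝ) ≤ k := by exact_mod_cast hk
  have hkn' : (k : ℝ) ≤ n := by exact_mod_cast hkn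
  have hn1 : (1 : ℝ) ≤ n := hk'.trans hkn'
  set c : ℝ := 1 / (n + 1) with hc
  have hc1 : c < 1 := by rw [hc, div_lt_one (by positivity)]; linarith
  obtain ⟨j1, j2⟩ := abs_le.1 hj
  have h1 : ‖toR ![k, -j]‖ ≤ ‖toR x‖ := by
    rw [hn, nle]
    have a1 : j < k + 1 := by exact_mod_cast (by nlinarith : (j : ℝ) < k + 1)
    have a2 : -1 < j := by exact_mod_cast (by nlinarith : (-1 : ℝ) < j)
    simp only [toR, Matrix.cons_val_zero, Matrix.cons_val_one, Int.cast_neg, abs_neg]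
    constructor <;> rw [← Int.cast_abs] <;> exact_mod_cast abs_le.2 ⟨by omega, by omega⟩
  have h2 : ‖T.mulVec (toR ![k, -j]) - toR 0‖ ≤ 3 / (10 * (n + 1)) := by
    have e : (3 : ℝ) / (10 * (n + 1)) = 3 / 10 * c := by rw [hc]; field_simp
    have e2 : (k : ℝ) + √2 * -j = √2 * (k * (√2 / 2) - j) := by linear_combination (-k / 2 : ℝ) * s2
    have hc0 : 0 ≤ c := by positivity
    rw [nle, e0, e1, e]
    simp only [Matrix.cons_val_zero, Matrix.cons_val_one, Int.cast_neg, Pi.zero_apply,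
      Int.cast_zero, sub_zero, e2, ← mul_assoc, s2]
    exact ⟨abs_le.2 ⟨by nlinarith, by nlinarith⟩, abs_le.2 ⟨by nlinarith, by nlinarith⟩⟩
  rcases h.2 _ 0 h1 (h2.trans (not_le.1 fun h' => hy (y0 x y n hn.le h')).le) with h3 | h3 | h3
  · have := congrFun h3.1 0
    simp at this; omega
  · exact hy h3.2.symm
  · exact hy (neg_eq_zero.1 h3.2.symm)

lemma pell_best (a b : ℤ) (hb : 1 ≤ b) (ha : 1 ≤ a) (h : a * a - 2 * b * b = 1) :
    Best T ![a, -b] 0 ∧ ‖toR ![a, -b]‖ = a := by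
  have hab : b ≤ a := by nlinarith
  have hb' : (1 : ℝ) ≤ b := by exact_mod_cast hb
  have hab' : (b : ℝ) ≤ a := by exact_mod_cast hab
  have := s_lo
  have := s_hi
  have hn : ‖toR ![a, -b]‖ = a := by
    refine le_antisymm ((nle _ _).2 ?_) ((le_abs_self _).trans ((nle (toR ![a, -b]) _).1 le_rfl).1)
    simp only [toR, Matrix.cons_val_zero, Matrix.cons_val_one, Int.cast_neg, abs_neg]
    exact ⟨abs_le.2 ⟨by linarith, le_rfl⟩, abs_le.2 ⟨by linarith, hab'⟩⟩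
  refine ⟨⟨fun e => by have := congrFun e 0; simp at this; omega, fun x y h1 h2 => ?_⟩, hn⟩
  set ε : ℝ := a - √2 * b with hε
  have hε1 : ε * (a + √2 * b) = 1 := by
    have : (a : ℝ) * a - 2 * b * b = 1 := by exact_mod_cast h
    rw [hε]; linear_combination this - (b : ℝ) * b * s2
  have hε0 : 0 < ε := by
    by_contra h0
    nlinarith
  have hε2 : ε * (a + 1) ≤ 1 := by
    rw [← hε1]; exact mul_le_mul_of_nonneg_left (by nlinarith) hε0.le
  have h3 : ‖T.mulVec (toR ![a, -b]) - toR 0‖ ≤ 2 * ε / 10 := by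
    have e2 : (a : ℝ) + √2 * -b = ε := by rw [hε]; ring
    rw [nle, e0, e1]
    simp only [Matrix.cons_val_zero, Matrix.cons_val_one, Int.cast_neg, Pi.zero_apply,
      Int.cast_zero, sub_zero, e2]
    exact ⟨abs_le.2 ⟨by linarith, le_rfl⟩, abs_le.2 ⟨by nlinarith, by nlinarith⟩⟩
  rw [hn] at h1
  have hy := y0 x y a h1 (h2.trans (h3.trans (by
    rw [div_le_div_iff₀ (by norm_num) (by positivity)]; nlinarith)))
  subst hy
  have h4 := ((nle _ _).1 (h2.trans h3)).1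
  rw [e0] at h4
  simp only [Pi.zero_apply, Int.cast_zero, sub_zero] at h4
  obtain ⟨a1, a2⟩ := abs_le.1 ((nle _ _).1 h1).1
  simp only [toR] at a1 a2
  obtain ⟨b1, b2⟩ := abs_le.1 h4
  have hε3 : ε ≤ 1 / 2 := by nlinarith
  have c1 : |(x 1 : ℝ)| ≤ b + 3 / 4 := abs_le.2 ⟨by nlinarith, by nlinarith⟩
  have c2 : |(x 0 : ℝ) + √2 * x 1| ≤ ε := abs_le.2 ⟨by linarith, by linarith⟩
  have hD : |((x 0 * b + x 1 * a : ℤ) : ℝ)| < 1 := by
    have : ((x 0 * b + x 1 * a : ℤ) : ℝ) = b * (x 0 + √2 * x 1) + x 1 * ε := by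
      push_cast; rw [hε]; ring
    rw [this]
    refine (abs_add_le _ _).trans_lt ?_
    rw [abs_mul, abs_mul, abs_of_pos hε0, abs_of_nonneg (by linarith : (0 : ℝ) ≤ b)]
    have h5 : ε * (2 * b + 3 / 4) < 1 := by
      rw [← hε1]; exact mul_lt_mul_of_pos_left (by nlinarith) hε0
    nlinarith
  have hD' : x 0 * b + x 1 * a = 0 := Int.abs_lt_one_iff.1 (by exact_mod_cast hD)
  have f1 : x 0 = (x 0 * a + 2 * x 1 * b) * a := by linear_combination (-x 0) * h - 2 * b * hD'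
  have f2 : x 1 = (x 0 * a + 2 * x 1 * b) * -b := by linear_combination (-x 1) * h + a * hD'
  set t := x 0 * a + 2 * x 1 * b
  have g1 : -a ≤ x 0 := by exact_mod_cast a1
  have g2 : x 0 ≤ a := by exact_mod_cast a2
  have t1 : -1 ≤ t := by nlinarith
  have t2 : t ≤ 1 := by nlinarith
  have : t = 0 ∨ t = 1 ∨ t = -1 := by omega
  rcases this with e | e | e <;> rw [e] at f1 f2
  · exact Or.inl ⟨by funext i; fin_cases i <;> simp [f1, f2], rfl⟩
  · exact Or.inr (Or.inl ⟨by funext i; fin_cases i <;> simp [f1, f2], rfl⟩)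
  · exact Or.inr (Or.inr ⟨by funext i; fin_cases i <;> simp [f1, f2], by simp⟩)

lemma pell (n : ℕ) : ∃ a b : ℤ, 1 ≤ b ∧ 1 ≤ a ∧ n ≤ a ∧ a * a - 2 * b * b = 1 := by
  induction n with
  | zero => exact ⟨3, 2, by norm_num⟩
  | succ n ih =>
    obtain ⟨a, b, h1, h2, h3, h4⟩ := ih
    exact ⟨3 * a + 4 * b, 2 * a + 3 * b, by omega, by omega, by push_cast; omega,
      by linear_combination h4⟩

theorem result : ∃ Θ : Matrix (Fin 2) (Fin 2) ℝ,
    (∀ x y : Fin 2 → ℤ, x ≠ 0 → Θ.mulVec (toR x) ≠ toR y) ∧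
    ∀ M : ℝ, Module.finrank ℝ (Submodule.span ℝ {z : (Fin 2 → ℝ) × (Fin 2 → ℝ) |
      ∃ x y, Best Θ x y ∧ M ≤ ‖toR x‖ ∧ z = (toR x, toR y)}) = 2 := by
  refine ⟨T, fun x y hx e => ?_, fun M => ?_⟩
  · have hy := y0 x y _ le_rfl (by rw [e, sub_self, norm_zero]; positivity)
    have h1 := e0 x y
    rw [e, sub_self, hy] at h1
    simp only [Pi.zero_apply, Int.cast_zero, sub_zero] at h1
    obtain ⟨h2, h3⟩ := nrm (x 0) (x 1) (by
      have : (x 0 : ℝ) * x 0 - 2 * x 1 * x 1 = 0 := by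
        linear_combination (-5 * (x 0 - √2 * x 1) : ℝ) * h1 + (x 1 : ℝ) * x 1 * s2
      exact_mod_cast this)
    exact hx (by funext i; fin_cases i <;> simp [h2, h3])
  · have h0 : toR 0 = 0 := by funext i; simp [toR]
    have : Submodule.span ℝ {z : (Fin 2 → ℝ) × (Fin 2 → ℝ) |
        ∃ x y, Best T x y ∧ M ≤ ‖toR x‖ ∧ z = (toR x, toR y)} =
        LinearMap.range (LinearMap.inl ℝ (Fin 2 → ℝ) (Fin 2 → ℝ)) := by
      apply le_antisymm
      · rw [Submodule.span_le]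
        rintro _ ⟨x, y, h, -, rfl⟩
        exact ⟨toR x, by rw [best_y x y h, h0]; rfl⟩
      · rintro _ ⟨v, rfl⟩
        obtain ⟨n, hn⟩ := exists_nat_ge M
        obtain ⟨a, b, h1, h2, h3, h4⟩ := pell n
        have h3' : (n : ℝ) ≤ a := by exact_mod_cast h3
        have h1' : (1 : ℝ) ≤ b := by exact_mod_cast h1
        have h2' : (1 : ℝ) ≤ a := by exact_mod_cast h2
        have h4' : (a : ℝ) * a - 2 * b * b = 1 := by exact_mod_cast h4
        obtain ⟨k1, k2⟩ := pell_best a b h1 h2 h4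
        obtain ⟨k3, k4⟩ := pell_best (3 * a + 4 * b) (2 * a + 3 * b) (by omega) (by omega)
          (by linear_combination h4)
        have := add_mem (Submodule.smul_mem _
          ((v 0 * (2 * a + 3 * b) + v 1 * (3 * a + 4 * b)) / 2) (Submodule.subset_span (R := ℝ)
          (s := {z : (Fin 2 → ℝ) × (Fin 2 → ℝ) |
            ∃ x y, Best T x y ∧ M ≤ ‖toR x‖ ∧ z = (toR x, toR y)})
          ⟨_, _, k1, by rw [k2]; linarith, rfl⟩)) (Submodule.smul_mem _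
          (-(v 0 * b + v 1 * a) / 2) (Submodule.subset_span
          ⟨_, _, k3, by rw [k4]; push_cast; linarith, rfl⟩))
        convert this using 1
        ext i
        · fin_cases i
          · simp [toR]; linear_combination (-v 0) * h4'
          · simp [toR]; linear_combination (-v 1) * h4'
        · simp [h0]
    rw [this, LinearMap.finrank_range_of_inj LinearMap.inl_injective]
    simp

end Pool.Agent.Results.MP_a0fa86_nt.TwoDim
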